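import Pool.Agent.Lib.MP_fa364e_pr.Std.Defs

/-! Limit shapes, wet regions and fluctuation exponents. -/

namespace FPPX

open MeasureTheory ProbabilityTheory Filter Set
open scoped Topology Pointwise

/-- Euclidean space. -/
abbrev RR (d : ℕ) := EuclideanSpace ℝ (Fin d)

/-- Rounding to a nearest lattice point. -/
noncomputable def latt {d : ℕ} (x : RR d) : Fin d → ℤ := fun i => round (x i)

/-- Euclidean length of a lattice vector. -/
noncomputable def len {d : ℕ} (x : Fin d → ℤ) : ℝ := Real.sqrt (∑ i, (x i : ℝ) ^ 2)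

/-- The wet region: the union of the unit cubes centred at the lattice points reached by time
`t`. -/
def wet {d : ℕ} (τ : Edge d → ℝ) (t : ℝ) : Set (RR d) :=
  {x | ∃ v : Fin d → ℤ, pt τ 0 v ≤ t ∧ ∀ i, |x i - v i| ≤ 1 / 2}

/-- The limit shape `{x : |x| μ(x/|x|) ≤ 1}`. -/
def limitShape {d : ℕ} (μ : RR d → ℝ) : Set (RR d) := {x | ‖x‖ * μ (‖x‖⁻¹ • x) ≤ 1}

/-- The exponents `κ` such that, almost surely, `(t - t^κ) W̃ ⊆ W_t ⊆ (t + t^κ) W̃` for all
large `t`. -/
def chiSet1 {d : ℕ} {Ω : Type*} [MeasurableSpace Ω] (P : Measure Ω) (W : Ω → ℝ → Set (RR d))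
    (μ : RR d → ℝ) : Set ℝ :=
  {κ | ∀ᵐ ω ∂P, ∀ᶠ t : ℝ in atTop, (t - t ^ κ) • limitShape μ ⊆ W ω t ∧
    W ω t ⊆ (t + t ^ κ) • limitShape μ}

/-- The exponents `κ` such that `V(x) / |x|^(2κ)` stays bounded as `|x| → ∞`. -/
def chiSet2 {X : Type*} (length : X → ℝ) (V : X → ℝ) : Set ℝ :=
  {κ | ∃ C R : ℝ, ∀ x, R ≤ length x → V x ≤ C * length x ^ (2 * κ)}

/-- The exponent `χ₁`, as an infimum in the extended reals. -/
noncomputable def chi1 {d : ℕ} {Ω : Type*} [MeasurableSpace Ω] (P : Measure Ω)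
    (W : Ω → ℝ → Set (RR d)) (μ : RR d → ℝ) : EReal :=
  sInf ((fun κ : ℝ => (κ : EReal)) '' chiSet1 P W μ)

/-- The exponent `χ₂`, as an infimum in the extended reals. -/
noncomputable def chi2 {X : Type*} (length : X → ℝ) (V : X → ℝ) : EReal :=
  sInf ((fun κ : ℝ => (κ : EReal)) '' chiSet2 length V)

/-- `τ` is a family of i.i.d. nonnegative edge weights with common law `F`. -/
structure IsStdFPP {d : ℕ} {Ω : Type*} [MeasurableSpace Ω] (P : Measure Ω) (F : Measure ℝ)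
    (τ : Edge d → Ω → ℝ) : Prop where
  meas : ∀ e, Measurable (τ e)
  nonneg : ∀ e ω, 0 ≤ τ e ω
  law : ∀ e, P.map (τ e) = F
  indep : iIndepFun τ P

end FPPX
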