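import Pool.Agent.Lib.MP_fa364e_pr.Core.Lat

/-! Standard first-passage percolation: deterministic definitions. -/

namespace FPPX

open MeasureTheory ProbabilityTheory Filter Set
open scoped Topology

/-- The nearest-neighbour edges of `ℤ^d`: `(z, i)` is the edge between `z` and `z + e_i`. -/
abbrev Edge (d : ℕ) := (Fin d → ℤ) × Fin d

/-- The edge `e` joins `u` and `v`. -/
def Joins {d : ℕ} (e : Edge d) (u v : Fin d → ℤ) : Prop :=
  (u = e.1 ∧ v = e.1 + Pi.single e.2 1) ∨ (v = e.1 ∧ u = e.1 + Pi.single e.2 1)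

/-- The list of edges is a lattice path from `u` to `v`. -/
def IsPath {d : ℕ} : (Fin d → ℤ) → (Fin d → ℤ) → List (Edge d) → Prop
  | u, v, [] => u = v
  | u, v, e :: l => ∃ w, Joins e u w ∧ IsPath w v l

/-- The passage time: infimum of the total weight over lattice paths. -/
noncomputable def pt {d : ℕ} (τ : Edge d → ℝ) (u v : Fin d → ℤ) : ℝ :=
  sInf {s | ∃ l : List (Edge d), IsPath u v l ∧ s = (l.map τ).sum}

end FPPX
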