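import Pool.Agent.Lib.MP_fa364e_pr.Mg.G005
import Pool.Agent.Lib.MP_fa364e_pr.Mg.G011
import Pool.Agent.Lib.MP_fa364e_pr.Mg.G010
import Pool.Agent.Lib.MP_fa364e_pr.Mg.G016
import Pool.Agent.Lib.MP_fa364e_pr.Mg.G019
import Pool.Agent.Lib.MP_fa364e_pr.Mg.G018

/-! Standard first-passage percolation: the two exponents agree. -/

namespace FPPX

open MeasureTheory ProbabilityTheory Filter Set
open scoped Topology Pointwise

/-- equality of the infima from the four implications -/
theorem sInf_eq_of (S1 S2 : Set ℝ) (h1 : (1 : ℝ) ∈ S1) (h2 : (1 : ℝ) ∈ S2)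
    (hA : ∀ κ ∈ S1, κ < 1 → ∀ κ', κ < κ' → κ' ∈ S2)
    (hB : ∀ κ ∈ S2, ∀ κ', κ < κ' → κ' ≤ 1 → κ' ∈ S1) :
    sInf ((fun κ : ℝ => (κ : EReal)) '' S1) = sInf ((fun κ : ℝ => (κ : EReal)) '' S2) := by
  have key : ∀ (S : Set ℝ) (κ c : ℝ), κ < c → (∀ κ', κ < κ' → κ' ≤ c → κ' ∈ S) →
      sInf ((fun κ : ℝ => (κ : EReal)) '' S) ≤ (κ : EReal) := by
    intro S κ c hc h
    apply le_of_forall_gt
    intro a ha
    obtain ⟨κ', hκ', hκa⟩ := EReal.lt_iff_exists_real_btwn.mp ha
    have hκ'1 : κ < κ' := by exact_mod_cast hκ'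
    have h3 : min κ' c ∈ S := h _ (lt_min hκ'1 hc) (min_le_right _ _)
    calc sInf ((fun κ : ℝ => (κ : EReal)) '' S) ≤ ((min κ' c : ℝ) : EReal) :=
          sInf_le ⟨_, h3, rfl⟩
      _ ≤ (κ' : EReal) := by exact_mod_cast min_le_left _ _
      _ < a := hκa
  apply le_antisymm
  · apply le_sInf
    rintro _ ⟨κ, hκ, rfl⟩
    rcases lt_or_ge κ 1 with hk | hk
    · exact key S1 κ 1 hk (fun κ' h3 h4 => hB κ hκ κ' h3 h4)
    · calc sInf ((fun κ : ℝ => (κ : EReal)) '' S1) ≤ ((1 : ℝ) : EReal) := sInf_le ⟨_, h1, rfl⟩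
        _ ≤ (κ : EReal) := by exact_mod_cast hk
  · apply le_sInf
    rintro _ ⟨κ, hκ, rfl⟩
    rcases lt_or_ge κ 1 with hk | hk
    · exact key S2 κ (κ + 1) (by linarith) (fun κ' h3 _ => hA κ hκ hk κ' h3)
    · calc sInf ((fun κ : ℝ => (κ : EReal)) '' S2) ≤ ((1 : ℝ) : EReal) := sInf_le ⟨_, h2, rfl⟩
        _ ≤ (κ : EReal) := by exact_mod_cast hk

variable {d : ℕ}

theorem std_main (hd : 2 ≤ d) (F : Measure ℝ) [IsProbabilityMeasure F]
    (hexp : ∃ γ : ℝ, 0 < γ ∧ Integrable (fun t => Real.exp (γ * t)) F)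
    (hpc : F.real {0} < pc d)
    {Ω : Type*} [MeasurableSpace Ω] {P : Measure Ω} [IsProbabilityMeasure P]
    {τ : Edge d → Ω → ℝ} (h : IsStdFPP P F τ) :
    ∃ μ : RR d → ℝ,
      (∀ u : RR d, ‖u‖ = 1 → 0 < μ u ∧ ∀ᵐ ω ∂P, Tendsto
        (fun n : ℕ => pt (fun e => τ e ω) 0 (latt ((n : ℝ) • u)) / n) atTop (𝓝 (μ u))) ∧
      ((∀ a : ℝ, F ≠ Measure.dirac a) → chi1 P (fun ω => wet (fun e => τ e ω)) μ =
        chi2 (len (d := d)) (fun x => variance (fun ω => pt (fun e => τ e ω) 0 x) P)) ∧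
      (∀ a : ℝ, F = Measure.dirac a → 0 ≤ chi1 P (fun ω => wet (fun e => τ e ω)) μ ∧
        chi2 (len (d := d)) (fun x => variance (fun ω => pt (fun e => τ e ω) 0 x) P) = ⊥) := by
  classical
  have hd1 : 1 ≤ d := by omega
  -- the law is supported on the nonnegative reals
  have hF0 : F (Iio 0) = 0 := by
    let e : Edge d := (0, ⟨0, by omega⟩)
    rw [← h.law e, Measure.map_apply (h.meas e) measurableSet_Iio]
    have : τ e ⁻¹' Iio 0 = ∅ := by
      ext ω
      simp only [mem_preimage, mem_Iio, mem_empty_iff_false, iff_false, not_lt]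
      exact h.nonneg e ω
    rw [this]; exact measure_empty
  have hexp' : ∃ γ : ℝ, 0 < γ ∧ Integrable (fun t => Real.exp (γ * |t|)) F := by
    obtain ⟨γ, hγ, hi⟩ := hexp
    refine ⟨γ, hγ, hi.congr ?_⟩
    have : ∀ᵐ t ∂F, 0 ≤ t := by
      rw [ae_iff]
      convert hF0 using 2
      ext t; simp
    filter_upwards [this] with t ht
    rw [abs_of_nonneg ht]
  obtain ⟨δ, hδ, hsmall⟩ := exists_small hd1 F hpc
  set M : LRM d (P0 d F) := (stdBLRM d F hexp' δ hδ hsmall).toLRM with hM
  have hMt : ∀ ω u v, M.t ω u v = pt (fun e => |ω e|) u v := fun ω u v => rfl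
  have hnm : IsNm M.μ M.cm M.CM := M.isNm
  have habs : ∀ ω, (fun e => |τ e ω|) = fun e => τ e ω := by
    intro ω; funext e; exact abs_of_nonneg (h.nonneg e ω)
  have hτ : ∀ ω e, 0 ≤ (fun e => τ e ω) e := fun ω e => h.nonneg e ω
  set V0 : V d → ℝ := fun x => variance (fun ω => pt (fun e => τ e ω) 0 x) P with hV0
  have hV0' : ∀ x, V0 x = ∫ ω, (M.t ω 0 x - ∫ ω', M.t ω' 0 x ∂(P0 d F)) ^ 2 ∂(P0 d F) :=
    fun x => h.variance_eq x
  have hV0n : ∀ x, 0 ≤ V0 x := fun x => variance_nonneg _ _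
  have hHypB : ∀ κ, κ ∈ chiSet2 (len (d := d)) V0 ↔ M.HypB κ := by
    intro κ
    rw [mem_chiSet2_iff hd1 V0 hV0n κ]
    simp only [hV0']
    rfl
  have hneg1 : ∀ κ ∈ chiSet1 P (fun ω => wet (fun e => τ e ω)) (toRR M.μ), 0 ≤ κ := by
    intro κ hκ
    by_contra hneg
    push Not at hneg
    have hκ2 : ∀ᵐ ω ∂P, ∀ᶠ t : ℝ in atTop,
      (t - t ^ κ) • limitShape (toRR M.μ) ⊆ wet (fun e => τ e ω) t ∧
        wet (fun e => τ e ω) t ⊆ (t + t ^ κ) • limitShape (toRR M.μ) := hκ
    obtain ⟨ω, hω⟩ := hκ2.exists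
    exact shape_neg hd1 hnm (hτ ω) hneg hω
  refine ⟨toRR M.μ, ?_, ?_, ?_⟩
  · intro u hu
    have hu0 : (fun i => u i : E d) ≠ 0 := by
      intro h0
      have : u = 0 := by
        ext i; exact congrFun h0 i
      rw [this, norm_zero] at hu
      exact zero_ne_one hu
    refine ⟨M.μ_pos _ hu0, ?_⟩
    have h1 := h.ae_of (M.as_lim (fun i => u i))
    filter_upwards [h1] with ω hω
    simp only [hMt] at hω
    rw [habs ω] at hω
    exact hω
  · -- equality of the exponents
    intro hnd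
    apply sInf_eq_of
    · -- one is in the first set
      have h1 := h.ae_of M.AS_lin
      show ∀ᵐ ω ∂P, _
      filter_upwards [h1] with ω hω
      apply shape_one hnm (hτ ω)
      intro ε hε
      have := hω ε hε
      simp only [hMt] at this
      rw [habs ω] at this
      exact this
    · -- one is in the second set
      rw [hHypB]
      obtain ⟨C, hC⟩ := M.moment 2
      refine ⟨C, fun x => ?_⟩
      have h2 : ∫ ω, (M.t ω 0 x - ∫ ω', M.t ω' 0 x ∂(P0 d F)) ^ 2 ∂(P0 d F) ≤
          ∫ ω, M.t ω 0 x ^ 2 ∂(P0 d F) := by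
        have h3 := M.integrable_pow 2 0 x
        have h4 := M.integrable_pow 1 0 x
        simp only [pow_one] at h4
        set m := ∫ ω', M.t ω' 0 x ∂(P0 d F) with hm
        have h5 : ∫ ω, (M.t ω 0 x - m) ^ 2 ∂(P0 d F) =
            ∫ ω, M.t ω 0 x ^ 2 ∂(P0 d F) - m ^ 2 := by
          have h6 : ∀ ω, (M.t ω 0 x - m) ^ 2 = M.t ω 0 x ^ 2 - (2 * m) * M.t ω 0 x + m ^ 2 := by
            intro ω; ring
          simp only [h6]
          have h7 : Integrable (fun ω => (2 * m) * M.t ω 0 x) (P0 d F) := h4.const_mul _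
          have h8 : Integrable (fun ω => M.t ω 0 x ^ 2 - (2 * m) * M.t ω 0 x) (P0 d F) :=
            h3.sub h7
          rw [integral_add h8 (integrable_const _), integral_sub h3 h7, integral_const_mul, ← hm]
          simp
          ring
        rw [h5]
        nlinarith [sq_nonneg m]
      refine h2.trans ((hC x).trans (le_of_eq ?_))
      rw [← Real.rpow_natCast]
      norm_num
    · -- from the first to the second set
      intro κ hκ hκ1 κ' hκκ'
      have hκ0 : 0 ≤ κ := hneg1 κ hκ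
      have h1 : ∀ᵐ ω ∂P, ∀ᶠ n : ℕ in atTop, ∀ v : V d, nm v ≤ n →
          |pt (fun e => τ e ω) 0 v - M.μ (tr v)| ≤ (n : ℝ) ^ (κ + (κ' - κ) / 4) := by
        have hκ2 : ∀ᵐ ω ∂P, ∀ᶠ t : ℝ in atTop,
          (t - t ^ κ) • limitShape (toRR M.μ) ⊆ wet (fun e => τ e ω) t ∧
            wet (fun e => τ e ω) t ⊆ (t + t ^ κ) • limitShape (toRR M.μ) := hκ
        filter_upwards [hκ2] with ω hω
        exact tendsto_natCast_atTop_atTop.eventually
          (bound_of_shape hnm (hτ ω) (by linarith) (by linarith) hκ1 hω)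
      have h2 := h.ae_nat M.μ _ h1
      have h3 : M.HypA (κ + (κ' - κ) / 2) := M.HypA_of_nat (by linarith) h2
      have h4 : M.SC (κ + 3 * (κ' - κ) / 4) := M.coreA hd (by linarith) (by linarith) h3
      have h5 : M.HypB (κ + 3 * (κ' - κ) / 4) := M.HypB_of_SC (by linarith) h4
      rw [hHypB]
      exact M.HypB_mono h5 (by linarith)
    · -- from the second to the first set
      intro κ hκ κ' hκκ' hκ1
      have hB : M.HypB κ := (hHypB κ).mp hκ
      have hκ0 : 0 ≤ κ := by
        by_contra hneg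
        push Not at hneg
        obtain ⟨c, hc, hlow⟩ := std_var_low hd1 F hexp' hF0 hnd
        obtain ⟨C, hC⟩ := hB
        have ht : Tendsto (fun n : ℕ => C * (1 + (n : ℝ)) ^ (2 * κ)) atTop (𝓝 (C * 0)) := by
          apply Tendsto.const_mul
          have h6 : Tendsto (fun n : ℕ => 1 + (n : ℝ)) atTop atTop :=
            tendsto_atTop_add_const_left _ _ tendsto_natCast_atTop_atTop
          have h7 : Tendsto (fun x : ℝ => x ^ (-(-(2 * κ)))) atTop (𝓝 0) :=
            tendsto_rpow_neg_atTop (by linarith)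
          simpa [Function.comp_def] using h7.comp h6
        rw [mul_zero] at ht
        obtain ⟨n, hn, hn1⟩ := ((ht.eventually (Iio_mem_nhds hc)).and
          (eventually_ge_atTop 1)).exists
        let x : V d := Pi.single ⟨0, by omega⟩ (n : ℤ)
        have hx0 : x ≠ 0 := by
          intro h0
          have := congrFun h0 ⟨0, by omega⟩
          simp [x] at this
          omega
        have hxn : nm x = n := by
          unfold nm
          apply le_antisymm
          · rw [pi_norm_le_iff_of_nonneg (by positivity)]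
            intro i
            by_cases hi : i = ⟨0, by omega⟩
            · subst hi; simp [tr, x]
            · simp [tr, x, Pi.single_eq_of_ne hi]
          · have h8 := norm_le_pi_norm (tr x) ⟨0, by omega⟩
            have h9 : ‖tr x ⟨0, by omega⟩‖ = n := by simp [tr, x]
            rwa [h9] at h8
        have h10 := hlow x hx0
        have h11 := hC x
        rw [hxn] at h11
        have h12 : c ≤ C * (1 + (n : ℝ)) ^ (2 * κ) := h10.trans h11
        exact absurd hn (not_lt.mpr h12)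
      have h1 : M.SC (κ + (κ' - κ) / 4) := M.coreB (by linarith) (by linarith) hB
      have h2 : M.AS (κ + (κ' - κ) / 2) := M.AS_of_SC h1 (by linarith)
      have h3 := h.ae_of h2
      show ∀ᵐ ω ∂P, _
      filter_upwards [h3] with ω hω
      simp only [hMt] at hω
      rw [habs ω] at hω
      exact shape_of_bound hnm (hτ ω) (by linarith) (by linarith) hκ1 hω
  · -- point masses
    intro a hFa
    refine ⟨?_, ?_⟩
    · apply le_sInf
      rintro _ ⟨κ, hκ, rfl⟩
      have h0 : (0 : ℝ) ≤ κ := hneg1 κ hκ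
      show (0 : EReal) ≤ (κ : EReal)
      exact_mod_cast h0
    · have h1 : ∀ᵐ ω ∂P, ∀ e : Edge d, τ e ω = a := by
        rw [ae_all_iff]
        intro e
        have h2 : ∀ᵐ t ∂(P.map (τ e)), t = a := by
          rw [h.law e, hFa]
          exact (ae_dirac_iff (p := fun t : ℝ => t = a) (measurableSet_singleton a)).mpr rfl
        exact ae_of_ae_map (h.meas e).aemeasurable h2
      have h3 : ∀ x, V0 x = 0 := by
        intro x
        rw [hV0]
        have h4 : (fun ω => pt (fun e => τ e ω) 0 x) =ᵐ[P] fun _ => pt (fun _ => a) 0 x := by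
          filter_upwards [h1] with ω hω
          simp only [hω]
        simp only
        rw [variance_congr h4, variance_eq_integral aemeasurable_const]
        simp
      have h5 : chiSet2 (len (d := d)) V0 = univ := by
        apply eq_univ_of_forall
        intro κ
        refine ⟨0, 0, fun x _ => ?_⟩
        rw [h3 x, zero_mul]
      unfold chi2
      rw [h5, image_univ]
      rw [eq_bot_iff]
      apply le_of_forall_gt
      intro b hb
      obtain ⟨κ, hκ1, hκ2⟩ := EReal.lt_iff_exists_real_btwn.mp hb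
      exact (sInf_le (mem_range_self κ)).trans_lt hκ2

end FPPX
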